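import Pool.Agent.H94.RTB.Targets

/-! Row R_ORT of ssp_modules: near orthogonality of two levels. -/

set_option autoImplicit false

namespace Pool.Agent.H44.RTB

open Pool.Agent.H94.RTB
open MeasureTheory Filter Topology Finset
open scoped ComplexConjugate NNReal

universe u v

theorem mcor_nonneg (a b : ℕ → ℂ) (M L : ℕ) : 0 ≤ mcor a b M L := NNReal.coe_nonneg _

theorem le_mcor (a b : ℕ → ℂ) (M L n : ℕ) (h : M ≤ n) (h' : n ≤ L) :
    ‖cor a b n‖ ≤ mcor a b M L := by
  unfold mcor
  rw [← coe_nnnorm, NNReal.coe_le_coe]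
  exact Finset.le_sup (f := fun n => ‖cor a b n‖₊) (Finset.mem_Icc.2 ⟨h, h'⟩)

/-- the bound for the shift `p` and the length `K` -/
noncomputable def hh (w : ℕ → ℂ) (C : ℝ) (M L p K : ℕ) : ℝ :=
  if p < K then mcor w (fun r => w (r + p)) M L + (if K < p + L then C ^ 2 else 0) else 0

theorem hh_nonneg (w : ℕ → ℂ) (C : ℝ) (M L p K : ℕ) : 0 ≤ hh w C M L p K := by
  unfold hh
  have := mcor_nonneg w (fun r => w (r + p)) M L
  split_ifs <;> positivity

theorem one_term (w : ℕ → ℂ) (C : ℝ) (hw : ∀ n, ‖w n‖ ≤ C) (M L n p K : ℕ) (hM : 1 ≤ M)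
    (hn : M ≤ n) (hn' : n ≤ L) :
    ‖(∑ r ∈ Icc 1 n, w r * conj (if r + p ≤ K then w (r + p) else 0)) / (n : ℂ)‖ ≤
      hh w C M L p K := by
  have hC : 0 ≤ C := (norm_nonneg _).trans (hw 0)
  have hn0 : (0 : ℝ) < n := by exact_mod_cast hM.trans hn
  unfold hh
  by_cases h1 : p < K
  · rw [if_pos h1]
    by_cases h2 : K < p + L
    · rw [if_pos h2]
      have h3 : ‖∑ r ∈ Icc 1 n, w r * conj (if r + p ≤ K then w (r + p) else 0)‖ ≤ n * C ^ 2 := by
        refine (norm_sum_le _ _).trans ?_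
        have h4 : ∀ r ∈ Icc 1 n, ‖w r * conj (if r + p ≤ K then w (r + p) else 0)‖ ≤ C ^ 2 := by
          intro r _
          rw [norm_mul, Complex.norm_conj, sq]
          refine mul_le_mul (hw r) ?_ (norm_nonneg _) hC
          split_ifs
          · exact hw _
          · rw [norm_zero]
            exact hC
        refine (Finset.sum_le_card_nsmul _ _ _ h4).trans (le_of_eq ?_)
        rw [Nat.card_Icc, nsmul_eq_mul]
        simp
      rw [norm_div, Complex.norm_natCast]
      have h5 := mcor_nonneg w (fun r => w (r + p)) M L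
      have h6 : ‖∑ r ∈ Icc 1 n, w r * conj (if r + p ≤ K then w (r + p) else 0)‖ / (n : ℝ) ≤
          C ^ 2 := by
        rw [div_le_iff₀ hn0, mul_comm]
        exact h3
      linarith
    · rw [if_neg h2, add_zero]
      have h3 : ∑ r ∈ Icc 1 n, w r * conj (if r + p ≤ K then w (r + p) else 0) =
          ∑ r ∈ Icc 1 n, w r * conj (w (r + p)) := by
        refine Finset.sum_congr rfl fun r hr => ?_
        rw [Finset.mem_Icc] at hr
        rw [if_pos (by omega)]
      rw [h3]
      exact le_mcor w (fun r => w (r + p)) M L n hn hn'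
  · rw [if_neg h1]
    have h3 : ∑ r ∈ Icc 1 n, w r * conj (if r + p ≤ K then w (r + p) else 0) = 0 := by
      refine Finset.sum_eq_zero fun r hr => ?_
      rw [Finset.mem_Icc] at hr
      rw [if_neg (by omega), map_zero, mul_zero]
    rw [h3, zero_div, norm_zero]

theorem sum_hh (w : ℕ → ℂ) (C η : ℝ) (M L M' L' K : ℕ) (hM : 1 ≤ M') (hη : 0 ≤ η)
    (hK : M' ≤ K) (hK' : K ≤ L')
    (h : (∑ p ∈ range K, mcor w (fun r => w (r + p)) M L) ≤ η * K) :
    ∑ p ∈ range L', hh w C M L p K / K ≤ η + C ^ 2 * L / M' := by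
  have hK0 : (0 : ℝ) < K := by exact_mod_cast hM.trans hK
  have hM0 : (0 : ℝ) < M' := by exact_mod_cast hM
  have h1 : ∑ p ∈ range L', hh w C M L p K = ∑ p ∈ range K, hh w C M L p K := by
    symm
    refine Finset.sum_subset (Finset.range_mono hK') fun p _ hp => ?_
    rw [Finset.mem_range] at hp
    unfold hh
    rw [if_neg hp]
  have h2 : ∑ p ∈ range K, hh w C M L p K ≤ η * K + L * C ^ 2 := by
    have h3 : ∀ p ∈ range K, hh w C M L p K =
        mcor w (fun r => w (r + p)) M L + (if K < p + L then C ^ 2 else 0) := by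
      intro p hp
      unfold hh
      rw [if_pos (Finset.mem_range.1 hp)]
    rw [Finset.sum_congr rfl h3, Finset.sum_add_distrib, ← Finset.sum_filter, Finset.sum_const,
      nsmul_eq_mul]
    have h4 : ((range K).filter fun p => K < p + L).card ≤ L := by
      have h5 : ((range K).filter fun p => K < p + L) ⊆ Finset.Ico (K - L) K := by
        intro p hp
        rw [Finset.mem_filter, Finset.mem_range] at hp
        rw [Finset.mem_Ico]
        omega
      refine (Finset.card_le_card h5).trans ?_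
      rw [Nat.card_Ico]
      omega
    have h5 : (((range K).filter fun p => K < p + L).card : ℝ) ≤ L := by exact_mod_cast h4
    have h6 := mul_le_mul_of_nonneg_right h5 (sq_nonneg C)
    linarith
  rw [← Finset.sum_div, h1]
  calc (∑ p ∈ range K, hh w C M L p K) / K ≤ (η * K + L * C ^ 2) / K := by gcongr
    _ = η + C ^ 2 * L / K := by
        field_simp
    _ ≤ η + C ^ 2 * L / M' := by
        have h7 : (M' : ℝ) ≤ K := by exact_mod_cast hK
        gcongr

section point

variable {X : Type u} [MeasurableSpace X] (T : X ≃ᵐ X)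

theorem symm_iter (r : ℕ) (x : X) : T.symm^[r] (T^[r] x) = x := by
  have h : Function.LeftInverse T.symm T := T.symm_apply_apply
  exact h.iterate r x

theorem symm_iter_add (r p : ℕ) (x : X) : T.symm^[r + p] (T^[r] x) = T.symm^[p] x := by
  rw [add_comm, Function.iterate_add_apply, symm_iter]

/-- the pointwise bound -/
theorem point (w : ℕ → ℂ) (C : ℝ) (hw : ∀ n, ‖w n‖ ≤ C) (M L M' L' : ℕ) (hM : 1 ≤ M)
    (hL : L ≤ M') (N' : X → ℕ) (a' : X → ℂ) (hN' : ∀ x, M' ≤ N' x ∧ N' x ≤ L')
    (ha' : ∀ x, ‖a' x‖ ≤ 1) (n : ℕ) (hn : M ≤ n) (hn' : n ≤ L) (x : X) :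
    ‖Av T (fun x => conj (CC T w L' N' a' x)) w n x‖ ≤
      C ^ 2 * L / M' + ∑ p ∈ range L', hh w C M L p (N' (T.symm^[p] x)) / N' (T.symm^[p] x) := by
  have hC : 0 ≤ C := (norm_nonneg _).trans (hw 0)
  have hn0 : (0 : ℝ) < n := by exact_mod_cast hM.trans hn
  have hM1 : 1 ≤ M' := by omega
  have hM0 : (0 : ℝ) < M' := by exact_mod_cast hM1
  obtain ⟨q, hq⟩ : ∃ q : ℕ → ℕ → ℂ, ∀ r s, q r s =
      if s ≤ N' (T.symm^[s] (T^[r] x)) then
        a' (T.symm^[s] (T^[r] x)) * w s / (N' (T.symm^[s] (T^[r] x)) : ℂ) else 0 :=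
    ⟨_, fun _ _ => rfl⟩
  have hG : ∀ r, CC T w L' N' a' (T^[r] x) = ∑ s ∈ Icc 1 L', q r s := by
    intro r
    unfold CC
    exact Finset.sum_congr rfl fun s _ => (hq r s).symm
  have hqn : ∀ r s, ‖q r s‖ ≤ C / M' := by
    intro r s
    rw [hq]
    split_ifs
    · rw [norm_div, norm_mul, Complex.norm_natCast]
      have h1 : (M' : ℝ) ≤ N' (T.symm^[s] (T^[r] x)) := by exact_mod_cast (hN' _).1
      calc ‖a' (T.symm^[s] (T^[r] x))‖ * ‖w s‖ / (N' (T.symm^[s] (T^[r] x)) : ℝ)
          ≤ 1 * C / M' := by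
            gcongr
            · exact ha' _
            · exact hw s
        _ = C / M' := by rw [one_mul]
    · rw [norm_zero]
      positivity
  -- splitting
  have hsplit : ∀ r ∈ Icc 1 n, ∑ s ∈ Icc 1 L', q r s =
      ∑ s ∈ (Icc 1 L').filter (fun s => s < r), q r s + ∑ p ∈ range L', q r (r + p) := by
    intro r hr
    rw [Finset.mem_Icc] at hr
    rw [← Finset.sum_filter_add_sum_filter_not (Icc 1 L') (fun s => s < r)]
    congr 1
    have h1 : ∑ p ∈ range L', q r (r + p) =
        ∑ s ∈ (range L').image (fun p => r + p), q r s := by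
      rw [Finset.sum_image]
      intro p _ p' _ h
      have h' : r + p = r + p' := h
      omega
    rw [h1]
    refine Finset.sum_subset ?_ ?_
    · intro s hs
      rw [Finset.mem_filter, Finset.mem_Icc] at hs
      rw [Finset.mem_image]
      refine ⟨s - r, Finset.mem_range.2 (by omega), by omega⟩
    · intro s hs hs'
      rw [Finset.mem_image] at hs
      obtain ⟨p, hp, rfl⟩ := hs
      rw [Finset.mem_filter, Finset.mem_Icc] at hs'
      rw [hq, if_neg]
      intro h
      have h2 := (hN' (T.symm^[r + p] (T^[r] x))).2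
      omega
  have hAv : Av T (fun x => conj (CC T w L' N' a' x)) w n x =
      (∑ r ∈ Icc 1 n, w r * conj (∑ s ∈ (Icc 1 L').filter (fun s => s < r), q r s)) / n +
      ∑ p ∈ range L', (∑ r ∈ Icc 1 n, w r * conj (q r (r + p))) / n := by
    unfold Av
    rw [← Finset.sum_div, ← add_div, Finset.sum_comm, ← Finset.sum_add_distrib]
    congr 1
    refine Finset.sum_congr rfl fun r hr => ?_
    beta_reduce
    rw [hG, hsplit r hr, map_add, mul_add, map_sum (starRingEnd ℂ) (fun p => q r (r + p)),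
      Finset.mul_sum]
  rw [hAv]
  refine (norm_add_le _ _).trans (add_le_add ?_ ?_)
  · rw [norm_div, Complex.norm_natCast, div_le_iff₀ hn0]
    refine (norm_sum_le _ _).trans ?_
    have h1 : ∀ r ∈ Icc 1 n,
        ‖w r * conj (∑ s ∈ (Icc 1 L').filter (fun s => s < r), q r s)‖ ≤ C * (L * (C / M')) := by
      intro r hr
      rw [Finset.mem_Icc] at hr
      rw [norm_mul, Complex.norm_conj]
      refine mul_le_mul (hw r) ?_ (norm_nonneg _) hC
      refine (norm_sum_le _ _).trans ((Finset.sum_le_card_nsmul _ _ _ fun s _ => hqn r s).trans ?_)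
      rw [nsmul_eq_mul]
      refine mul_le_mul_of_nonneg_right ?_ (by positivity)
      have h2 : ((Icc 1 L').filter (fun s => s < r)).card ≤ L := by
        have h3 : (Icc 1 L').filter (fun s => s < r) ⊆ range r := by
          intro s hs
          rw [Finset.mem_filter] at hs
          exact Finset.mem_range.2 hs.2
        refine (Finset.card_le_card h3).trans ?_
        rw [Finset.card_range]
        omega
      exact_mod_cast h2
    refine (Finset.sum_le_card_nsmul _ _ _ h1).trans (le_of_eq ?_)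
    rw [Nat.card_Icc, nsmul_eq_mul]
    simp only [Nat.add_sub_cancel]
    ring
  · refine (norm_sum_le _ _).trans (Finset.sum_le_sum fun p _ => ?_)
    have h1 : ∀ r, q r (r + p) = (a' (T.symm^[p] x) / (N' (T.symm^[p] x) : ℂ)) *
        (if r + p ≤ N' (T.symm^[p] x) then w (r + p) else 0) := by
      intro r
      rw [hq, symm_iter_add]
      split_ifs
      · ring
      · rw [mul_zero]
    have h2 : (∑ r ∈ Icc 1 n, w r * conj (q r (r + p))) / (n : ℂ) =
        conj (a' (T.symm^[p] x) / (N' (T.symm^[p] x) : ℂ)) *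
        ((∑ r ∈ Icc 1 n, w r * conj (if r + p ≤ N' (T.symm^[p] x) then w (r + p) else 0)) /
          (n : ℂ)) := by
      rw [mul_div_assoc', Finset.mul_sum]
      congr 1
      refine Finset.sum_congr rfl fun r _ => ?_
      rw [h1, map_mul]
      ring
    rw [h2, norm_mul, Complex.norm_conj, norm_div, Complex.norm_natCast]
    have h3 := one_term w C hw M L n p (N' (T.symm^[p] x)) hM hn hn'
    have h4 : (0 : ℝ) < N' (T.symm^[p] x) := by
      have := (hN' (T.symm^[p] x)).1
      exact_mod_cast hM1.trans this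
    have h5 := ha' (T.symm^[p] x)
    calc _ ≤ 1 / (N' (T.symm^[p] x) : ℝ) * hh w C M L p (N' (T.symm^[p] x)) := by gcongr
      _ = _ := by ring

end point

theorem meas_CC {X : Type u} [MeasurableSpace X] (T : X ≃ᵐ X) (w : ℕ → ℂ) (L : ℕ) (N : X → ℕ)
    (a : X → ℂ) (hN : Measurable N) (ha : Measurable a) : Measurable (CC T w L N a) := by
  unfold CC
  refine Finset.measurable_sum _ fun r _ => ?_
  have hT : Measurable (T.symm^[r]) := T.symm.measurable.iterate r
  refine Measurable.ite ?_ ?_ measurable_const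
  · exact (hN.comp hT) (measurableSet_Ici : MeasurableSet (Set.Ici r))
  · have h1 : Measurable fun x => ((N (T.symm^[r] x) : ℕ) : ℂ) :=
      (measurable_from_nat (f := fun n : ℕ => (n : ℂ))).comp (hN.comp hT)
    exact ((ha.comp hT).mul_const _).div h1

theorem norm_CC {X : Type u} [MeasurableSpace X] (T : X ≃ᵐ X) (w : ℕ → ℂ) (C : ℝ)
    (hw : ∀ n, ‖w n‖ ≤ C) (L : ℕ) (N : X → ℕ) (a : X → ℂ) (hN : ∀ x, 1 ≤ N x)
    (ha : ∀ x, ‖a x‖ ≤ 1) (x : X) : ‖CC T w L N a x‖ ≤ L * C := by
  have hC : 0 ≤ C := (norm_nonneg _).trans (hw 0)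
  unfold CC
  refine (norm_sum_le _ _).trans ?_
  have h1 : ∀ r ∈ Icc 1 L, ‖if r ≤ N (T.symm^[r] x) then
      a (T.symm^[r] x) * w r / (N (T.symm^[r] x) : ℂ) else 0‖ ≤ C := by
    intro r _
    split_ifs
    · rw [norm_div, norm_mul, Complex.norm_natCast]
      have h2 : (1 : ℝ) ≤ N (T.symm^[r] x) := by exact_mod_cast hN _
      calc ‖a (T.symm^[r] x)‖ * ‖w r‖ / (N (T.symm^[r] x) : ℝ) ≤ 1 * C / 1 := by
            gcongr
            · exact ha _
            · exact hw r
        _ = C := by ring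
    · rw [norm_zero]
      exact hC
  refine (Finset.sum_le_card_nsmul _ _ _ h1).trans (le_of_eq ?_)
  rw [Nat.card_Icc, nsmul_eq_mul]
  simp

theorem pf_ORT (h1 : T_PAIR.{u}) : T_ORT.{u} := by
  intro X _ μ _ T hT w C η M L M' L' N N' a a' hw hη hM hML hLM hML' hN hNb ha hab hN' hNb' ha'
    hab' hcor
  have hC : 0 ≤ C := (norm_nonneg _).trans (hw 0)
  have hM1 : 1 ≤ M' := by omega
  have hpair := h1 X μ T hT w L N a (fun x => conj (CC T w L' N' a' x)) (L' * C) hN
    (fun x => ⟨hM.trans (hNb x).1, (hNb x).2⟩) ha hab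
    (Complex.continuous_conj.measurable.comp (meas_CC T w L' N' a' hN' ha'))
    (fun x => by
      rw [Complex.norm_conj]
      exact norm_CC T w C hw L' N' a' (fun x => hM1.trans (hNb' x).1) hab' x)
  rw [hpair]
  -- the bounding function
  have hsm : ∀ p : ℕ, MeasurePreserving (T.symm^[p]) μ μ := fun p => (hT.symm T).iterate p
  have hmeas : ∀ p : ℕ, Measurable fun y => hh w C M L p (N' y) / (N' y : ℝ) := by
    intro p
    exact (measurable_from_nat (f := fun K : ℕ => hh w C M L p K / (K : ℝ))).comp hN'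
  have hint : ∀ p : ℕ, Integrable (fun y => hh w C M L p (N' y) / (N' y : ℝ)) μ := by
    intro p
    refine Integrable.of_bound (hmeas p).aestronglyMeasurable
      (∑ K ∈ range (L' + 1), hh w C M L p K / (K : ℝ)) (Eventually.of_forall fun y => ?_)
    rw [Real.norm_of_nonneg (div_nonneg (hh_nonneg _ _ _ _ _ _) (Nat.cast_nonneg _))]
    exact Finset.single_le_sum (f := fun K : ℕ => hh w C M L p K / (K : ℝ))
      (fun K _ => div_nonneg (hh_nonneg _ _ _ _ _ _) (Nat.cast_nonneg _))
      (Finset.mem_range.2 (by have := (hNb' y).2; omega))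
  have hint' : ∀ p : ℕ, Integrable
      (fun x => hh w C M L p (N' (T.symm^[p] x)) / (N' (T.symm^[p] x) : ℝ)) μ := by
    intro p
    exact (hsm p).integrable_comp_of_integrable (hint p)
  have heq : ∀ p : ℕ, ∫ x, hh w C M L p (N' (T.symm^[p] x)) / (N' (T.symm^[p] x) : ℝ) ∂μ =
      ∫ y, hh w C M L p (N' y) / (N' y : ℝ) ∂μ := by
    intro p
    have h2 := (hsm p).map_eq
    conv_rhs => rw [← h2]
    rw [integral_map (hsm p).measurable.aemeasurable (hmeas p).aestronglyMeasurable]
  have hb : ‖∫ x, a x * Av T (fun x => conj (CC T w L' N' a' x)) w (N x) x ∂μ‖ ≤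
      ∫ x, (C ^ 2 * L / M' + ∑ p ∈ range L',
        hh w C M L p (N' (T.symm^[p] x)) / (N' (T.symm^[p] x) : ℝ)) ∂μ := by
    refine norm_integral_le_of_norm_le ((integrable_const _).add
      (integrable_finsetSum _ fun p _ => hint' p)) (Eventually.of_forall fun x => ?_)
    rw [norm_mul]
    have h2 := point T w C hw M L M' L' hM hLM N' a' hNb' hab' (N x) (hNb x).1 (hNb x).2 x
    calc ‖a x‖ * ‖Av T (fun x => conj (CC T w L' N' a' x)) w (N x) x‖
        ≤ 1 * ‖Av T (fun x => conj (CC T w L' N' a' x)) w (N x) x‖ :=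
          mul_le_mul_of_nonneg_right (hab x) (norm_nonneg _)
      _ ≤ _ := by
          rw [one_mul]
          exact h2
  refine hb.trans ?_
  rw [integral_add (integrable_const _) (integrable_finsetSum _ fun p _ => hint' p),
    integral_finsetSum _ fun p _ => hint' p, Finset.sum_congr rfl fun p _ => heq p,
    ← integral_finsetSum _ fun p _ => hint p]
  have h3 : ∫ y, ∑ p ∈ range L', hh w C M L p (N' y) / (N' y : ℝ) ∂μ ≤ η + C ^ 2 * L / M' := by
    have h4 : ∫ y, ∑ p ∈ range L', hh w C M L p (N' y) / (N' y : ℝ) ∂μ ≤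
        ∫ _ : X, (η + C ^ 2 * L / M') ∂μ := by
      refine integral_mono (integrable_finsetSum _ fun p _ => hint p) (integrable_const _)
        fun y => ?_
      exact sum_hh w C η M L M' L' (N' y) hM1 hη (hNb' y).1 (hNb' y).2 (hcor _ (hNb' y).1)
    refine h4.trans (le_of_eq ?_)
    simp
  have h5 : ∫ _ : X, C ^ 2 * L / M' ∂μ = C ^ 2 * L / M' := by simp
  rw [h5]
  calc C ^ 2 * L / M' + ∫ y, ∑ p ∈ range L', hh w C M L p (N' y) / (N' y : ℝ) ∂μ
      ≤ C ^ 2 * L / M' + (η + C ^ 2 * L / M') := by gcongr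
    _ = η + 2 * C ^ 2 * L / M' := by ring

end Pool.Agent.H44.RTB
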